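import Pool.Agent.T63.FAG4

set_option autoImplicit false

/-!
# A free Abelian topological group which is a `k_ℝ`-space with a closed subgroup which is not

Let `Σ` be the set of points of the Cantor cube `{0,1}^ℝ` with countable support, and let
`X = βω × Σ ∪ ω × {0,1}^ℝ`, a subspace of the compact space `βω × {0,1}^ℝ`.  The free Abelian
topological group `A(X)` is a `k_ℝ`-space: a real function on `A(X)` which is continuous on compact
sets factors through a truncation `A(X) → A(βω × {0,1}^J)` with `J` countable, and Graev's
description of the free group of a compact space applies.  The subgroup generated by the closed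
discrete subset `ω × {1}` of `X` is closed and not discrete, but all its compact subsets are
finite, since it inherits from `βω` all characters `ω → {0,1}`; so it is not a `k_ℝ`-space.
-/

namespace Pool.Agent.Results.MP_ebea7e_gt.FreeAbelianGroupCase

open Topology

/-- The property defining `k_ℝ`-spaces: every real function whose restrictions to the compact
subsets are continuous is continuous. -/
def IsKR (X : Type) [TopologicalSpace X] : Prop :=
  ∀ f : X → ℝ, (∀ K : Set X, IsCompact K → ContinuousOn f K) → Continuous f

/-- `τ` is the topology of the free Abelian topological group `A(X)` in the sense of Markov: among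
the group topologies on the free Abelian group on the set `X` which induce the original topology on
`X`, it is the finest one (the topologies on a set are ordered here in such a way that `σ ≤ σ'`
means that `σ` is finer than `σ'`, so that the finest one is the least one). -/
def IsMarkovTopology (X : Type) [tX : TopologicalSpace X]
    (τ : TopologicalSpace (FreeAbelianGroup X)) : Prop :=
  IsLeast {σ : TopologicalSpace (FreeAbelianGroup X) |
    @IsTopologicalAddGroup (FreeAbelianGroup X) σ _ ∧
      TopologicalSpace.induced (FreeAbelianGroup.of : X → FreeAbelianGroup X) σ = tX} τ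

/-- **MP_ebea7e_gt, Q2, negative answer.**  There is a Tychonoff space `X` whose free Abelian
topological group `A(X)` is a (Hausdorff) `k_ℝ`-space and has a closed subgroup which is not a
`k_ℝ`-space. -/
theorem result :
    ∃ (X : Type) (_ : TopologicalSpace X), T35Space X ∧
      ∃ τ : TopologicalSpace (FreeAbelianGroup X), IsMarkovTopology X τ ∧
        @T2Space (FreeAbelianGroup X) τ ∧ @IsKR (FreeAbelianGroup X) τ ∧
        ∃ H : AddSubgroup (FreeAbelianGroup X), IsClosed[τ] (H : Set (FreeAbelianGroup X)) ∧
          ¬ @IsKR H (TopologicalSpace.induced Subtype.val τ) := by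
  obtain ⟨τ, hτ⟩ := Pool.Agent.T63.FAG.exists_isLeast (X := Pool.Agent.T63.FAG.X0)
  exact ⟨Pool.Agent.T63.FAG.X0, inferInstance, inferInstance, τ, hτ,
    Pool.Agent.T63.FAG.t2Space hτ, Pool.Agent.T63.FAG.isKR_free hτ, Pool.Agent.T63.FAG.H0,
    Pool.Agent.T63.FAG.isClosed_closure hτ Pool.Agent.T63.FAG.isClosed_F0,
    Pool.Agent.T63.FAG.not_isKR hτ⟩

end Pool.Agent.Results.MP_ebea7e_gt.FreeAbelianGroupCase
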